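import Pool.Agent.TH179.SD.FinG

/-!
# A closed c-symplectic 8-manifold with an almost symplectic form which is not homotopic to a
# symplectic form

The manifold is `M = (S³ × S⁵) # (CP⁴ with the opposite orientation)`, of real dimension `8`. It has
almost symplectic forms and a class with nonzero fourth power, but no symplectic form.
The definitions are in `Pool/Agent/TH179/SD/Gen.lean`.
-/

open scoped ContDiff Manifold
open Pool.Agent.TH179.SDGen

namespace Pool.Agent.Results.MP_1a66bd_gt.NoClosedFormInClass

theorem result :
    ∃ (E : Type) (_ : NormedAddCommGroup E) (_ : NormedSpace ℝ E)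
      (M : Type) (_ : TopologicalSpace M) (_ : ChartedSpace E M),
      -- a closed smooth manifold of dimension eight, simply connected (in particular connected)
      IsClosedManifold E M 8 ∧ SimplyConnectedSpace M ∧
      -- c-symplectic: a class `a` in the second de Rham cohomology with `a⁴ ≠ 0`
      (∃ α : DiffForm E M 2, α.Closed ∧ ¬ α.FourthPowerExact) ∧
      -- an almost symplectic form whose homotopy class contains no closed form
      (∃ s : DiffForm E M 2, s.Nondegenerate ∧
        ¬ ∃ w : DiffForm E M 2, w.Closed ∧ w.Nondegenerate ∧ Homotopic s w) ∧
      -- indeed there is no symplectic form at all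
      ¬ ∃ w : DiffForm E M 2, w.Closed ∧ w.Nondegenerate :=
  res3

end Pool.Agent.Results.MP_1a66bd_gt.NoClosedFormInClass
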